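import Pool.Agent.Run7.h47.SD.Iface

/-!
Project SD (helper47), piece RES: expansion for small symbols (with the facts on operators as
hypotheses).
-/

set_option autoImplicit false

namespace Run7.h83.SD

open MeasureTheory Filter Pool.Agent.W792.LL Pool.Agent.W792.WA
open Pool.Agent.Run7.h47.SD
open scoped Topology

theorem toC_apply {X : Type} [TopologicalSpace X] {f : X → ℂ} (hf : Continuous f) (k : X) :
    toC f k = f k := by
  unfold toC
  rw [dif_pos hf]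
  rfl

theorem den_ne (v : ℝ) : (v : ℂ) - Complex.I ≠ 0 := by
  intro h
  have := congrArg Complex.im h
  simp at this

theorem one_le_den (v : ℝ) : 1 ≤ ‖(v : ℂ) - Complex.I‖ := by
  have := Complex.abs_im_le_norm ((v : ℂ) - Complex.I)
  simp at this
  exact this

theorem norm_dd (v : ℝ) : ‖dd v‖ ≤ 1 := by
  unfold dd
  rw [norm_div, norm_one]
  exact (div_le_one (by linarith [one_le_den v])).2 (one_le_den v)

theorem cay_eq (v : ℝ) : cay v = 1 + 2 * Complex.I * dd v := by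
  unfold cay dd
  have := den_ne v
  field_simp
  ring

theorem norm_cay (v : ℝ) : ‖cay v‖ ≤ 1 := by
  unfold cay
  rw [norm_div]
  have h : ‖(v : ℂ) + Complex.I‖ = ‖(v : ℂ) - Complex.I‖ := by
    have : (v : ℂ) + Complex.I = (starRingEnd ℂ) ((v : ℂ) - Complex.I) := by
      simp
    rw [this, Complex.norm_conj]
  rw [h, div_self]
  exact (lt_of_lt_of_le one_pos (one_le_den v)).ne'

section ops

variable {d : ℕ}

theorem opr_smul (ho : S_OPR) (a : ℂ) (m : C(UnitAddTorus (Fin d), ℂ)) :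
    opr (a • m) = a • opr m := (ho d m m).2.2.2.2.1 a

theorem opr_mul (ho : S_OPR) (m m' : C(UnitAddTorus (Fin d), ℂ)) :
    opr (m * m') = opr m * opr m' := (ho d m m').2.2.1

theorem opr_add (ho : S_OPR) (m m' : C(UnitAddTorus (Fin d), ℂ)) :
    opr (m + m') = opr m + opr m' := (ho d m m').2.2.2.1

theorem opr_one (ho : S_OPR) : opr (1 : C(UnitAddTorus (Fin d), ℂ)) = 1 :=
  (ho d 1 1).2.2.2.2.2.1

theorem opr_norm (ho : S_OPR) (m : C(UnitAddTorus (Fin d), ℂ)) : ‖opr m‖ ≤ ‖m‖ := (ho d m m).2.1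

theorem opr_sub (ho : S_OPR) (m m' : C(UnitAddTorus (Fin d), ℂ)) :
    opr (m - m') = opr m - opr m' := by
  have h : m - m' = m + (-1 : ℂ) • m' := by
    ext k
    simp
    ring
  have h2 : (-1 : ℂ) • opr m' = -opr m' := by
    rw [neg_smul, one_smul]
  rw [h, opr_add ho, opr_smul ho, h2, sub_eq_add_neg]

theorem DD_apply (hd : S_DIA) (v : (Fin d → ℤ) → ℝ) (u : l2 (Fin d → ℤ)) (x : Fin d → ℤ) :
    DD v u x = dd (v x) * u x :=
  (hd (Fin d → ℤ) (fun x => dd (v x)) fun _ => norm_dd _).1 u x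

theorem norm_DD (hd : S_DIA) (v : (Fin d → ℤ) → ℝ) : ‖DD v‖ ≤ 1 :=
  (hd (Fin d → ℤ) (fun x => dd (v x)) fun _ => norm_dd _).2

theorem dc_apply (hd : S_DIA) (v : (Fin d → ℤ) → ℝ) (u : l2 (Fin d → ℤ)) (x : Fin d → ℤ) :
    dc v u x = cay (v x) * u x :=
  (hd (Fin d → ℤ) (fun x => cay (v x)) fun _ => norm_cay _).1 u x

theorem norm_dc (hd : S_DIA) (v : (Fin d → ℤ) → ℝ) : ‖dc v‖ ≤ 1 :=
  (hd (Fin d → ℤ) (fun x => cay (v x)) fun _ => norm_cay _).2

theorem dc_eq (hd : S_DIA) (v : (Fin d → ℤ) → ℝ) :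
    dc v = 1 + (2 * Complex.I) • DD v := by
  ext u x
  have h1 : (((1 : l2 (Fin d → ℤ) →L[ℂ] l2 (Fin d → ℤ)) + (2 * Complex.I) • DD v) u) x =
      u x + 2 * Complex.I * (DD v u x) := rfl
  rw [h1, dc_apply hd, DD_apply hd, cay_eq]
  ring

theorem DD_eq (hd : S_DIA) (v : (Fin d → ℤ) → ℝ) :
    DD v = (1 / (2 * Complex.I)) • (dc v - 1) := by
  rw [dc_eq hd, add_sub_cancel_left, smul_smul]
  have : 1 / (2 * Complex.I) * (2 * Complex.I) = 1 := by
    field_simp
  rw [this, one_smul]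

/-- the terms are quasi-local -/
theorem ql_ter (ho : S_OPR) (hd : S_DIA) (hq : S_QL) (X : C(UnitAddTorus (Fin d), ℂ)) (n : ℕ) :
    IsQL (ter X n) := by
  obtain ⟨q1, q2, q3, -, -⟩ := hq d
  have hone : IsQL (fun _ : (Fin d → ℤ) → ℝ => (1 : l2 (Fin d → ℤ) →L[ℂ] l2 (Fin d → ℤ))) := by
    have := q1 1
    rwa [opr_one ho] at this
  have hDD : IsQL (fun v : (Fin d → ℤ) → ℝ => DD v) := by
    have h1 := (q3 _ _ (q1 ((1 / (2 * Complex.I)) • (1 : C(UnitAddTorus (Fin d), ℂ))))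
      (q3 _ _ q2 hone).2.1).2.2
    have h2 : (fun v : (Fin d → ℤ) → ℝ => opr ((1 / (2 * Complex.I)) • (1 : C(UnitAddTorus (Fin d), ℂ))) *
        (dc v - 1)) = fun v => DD v := by
      funext v
      rw [opr_smul ho, opr_one ho, smul_mul_assoc, one_mul, DD_eq hd]
    rwa [h2] at h1
  have hXD := (q3 _ _ (q1 X) hDD).2.2
  have hpow : IsQL (fun v : (Fin d → ℤ) → ℝ => (opr X * DD v) ^ n) := by
    induction n with
    | zero => simpa using hone
    | succ n ih =>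
      have := (q3 _ _ ih hXD).2.2
      simpa only [pow_succ] using this
  exact (q3 _ _ hDD hpow).2.2

theorem norm_ter (ho : S_OPR) (hd : S_DIA) (X : C(UnitAddTorus (Fin d), ℂ)) (n : ℕ)
    (v : (Fin d → ℤ) → ℝ) : ‖ter X n v‖ ≤ ‖X‖ ^ n := by
  unfold ter
  have h1 : ‖opr X * DD v‖ ≤ ‖X‖ := by
    calc ‖opr X * DD v‖ ≤ ‖opr X‖ * ‖DD v‖ := norm_mul_le _ _
      _ ≤ ‖X‖ * 1 := mul_le_mul (opr_norm ho X) (norm_DD hd v) (norm_nonneg _) (norm_nonneg _)
      _ = ‖X‖ := mul_one _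
  calc ‖DD v * (opr X * DD v) ^ n‖ ≤ ‖DD v‖ * ‖(opr X * DD v) ^ n‖ := norm_mul_le _ _
    _ ≤ 1 * ‖X‖ ^ n := by
        refine mul_le_mul (norm_DD hd v) ?_ (norm_nonneg _) zero_le_one
        rcases Nat.eq_zero_or_pos n with rfl | hn
        · rw [pow_zero, pow_zero]
          exact ContinuousLinearMap.norm_id_le
        · exact (norm_pow_le' _ hn).trans (pow_le_pow_left₀ (norm_nonneg _) h1 n)
    _ = ‖X‖ ^ n := one_mul _

theorem norm_dl (x : Fin d → ℤ) : ‖dl x‖ ≤ 1 := by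
  unfold dl
  rw [lp.norm_single (by norm_num)]
  simp

theorem coord_le (u : l2 (Fin d → ℤ)) (x : Fin d → ℤ) : ‖u x‖ ≤ ‖u‖ :=
  lp.norm_apply_le_norm (by norm_num) u x

/-- the algebra -/
theorem inv_eq (ho : S_OPR) (hd : S_DIA) (hc : S_CSYM) (ν : Measure ℝ) [IsProbabilityMeasure ν]
    (X m : C(UnitAddTorus (Fin d), ℂ)) (t : ℂ) (ht : ‖t‖ * ‖X‖ ≤ 1 / 2) (hm : ‖m‖ < 1)
    (hmX : (m - 1) * (t • X) = (2 * Complex.I) • m) (v : (Fin d → ℤ) → ℝ) :
    HasSum (fun n : ℕ => (-t) ^ n • ter X n v) (DD v * (rsv m v * opr (1 - m))) := by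
  obtain ⟨-, hr1, hr2⟩ := (hc ν d m hm).1 v
  set B : l2 (Fin d → ℤ) →L[ℂ] l2 (Fin d → ℤ) := (-t) • (opr X * DD v) with hB
  have hBn : ‖B‖ < 1 := by
    have h1 : ‖opr X * DD v‖ ≤ ‖X‖ := by
      calc ‖opr X * DD v‖ ≤ ‖opr X‖ * ‖DD v‖ := norm_mul_le _ _
        _ ≤ ‖X‖ * 1 := mul_le_mul (opr_norm ho X) (norm_DD hd v) (norm_nonneg _) (norm_nonneg _)
        _ = ‖X‖ := mul_one _
    calc ‖B‖ = ‖t‖ * ‖opr X * DD v‖ := by rw [hB, norm_smul, norm_neg]
      _ ≤ ‖t‖ * ‖X‖ := mul_le_mul_of_nonneg_left h1 (norm_nonneg _)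
      _ < 1 := by linarith
  have hsum : Summable fun n : ℕ => B ^ n := summable_geometric_of_norm_lt_one hBn
  have hinv : (1 - B) * ∑' n : ℕ, B ^ n = 1 := mul_neg_geom_series B hBn
  -- `1 - m c = (1 - m) (1 + t X D)`
  have h1 : opr (1 - m) * (1 - B) = 1 - opr m * dc v := by
    have e1 : opr (1 - m) * (t • opr X) = -((2 * Complex.I) • opr m) := by
      rw [← opr_smul ho, ← opr_mul ho]
      have e2 : (1 - m) * (t • X) = (-(2 * Complex.I)) • m := by
        have e3 : (1 - m) * (t • X) = -((m - 1) * (t • X)) := by ring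
        rw [e3, hmX]
        exact (neg_smul (2 * Complex.I) m).symm
      rw [e2, opr_smul ho]
      exact neg_smul (2 * Complex.I) (opr m)
    have e4 : (1 : l2 (Fin d → ℤ) →L[ℂ] l2 (Fin d → ℤ)) - B = 1 + (t • opr X) * DD v := by
      rw [hB, neg_smul, sub_neg_eq_add, smul_mul_assoc]
    rw [e4, mul_add, mul_one, ← mul_assoc, e1, opr_sub ho, opr_one ho, dc_eq hd, mul_add, mul_one,
      neg_mul, smul_mul_assoc, mul_smul_comm]
    abel
  have h2 : ∑' n : ℕ, B ^ n = rsv m v * opr (1 - m) := by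
    calc ∑' n : ℕ, B ^ n = (rsv m v * (1 - opr m * dc v)) * ∑' n : ℕ, B ^ n := by
          rw [hr2, one_mul]
      _ = rsv m v * opr (1 - m) * ((1 - B) * ∑' n : ℕ, B ^ n) := by
          rw [← h1]
          simp only [mul_assoc]
      _ = rsv m v * opr (1 - m) := by rw [hinv, mul_one]
  have h3 := (hsum.hasSum).mul_left (DD v)
  rw [h2] at h3
  have h4 : (fun n : ℕ => (-t) ^ n • ter X n v) = fun n => DD v * B ^ n := by
    funext n
    rw [hB, smul_pow, mul_smul_comm]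
    rfl
  rw [h4]
  exact h3

/-- the symbol -/
theorem toC_mm (X : C(UnitAddTorus (Fin d), ℂ)) (t : ℂ) (ht : ‖t‖ * ‖X‖ ≤ 1 / 2) :
    (∀ k, t * X k - 2 * Complex.I ≠ 0) ∧
    (∀ k, cayx ((t • X - ct d Complex.I) k) 0 = t * X k / (t * X k - 2 * Complex.I)) ∧
    Continuous (fun k => cayx ((t • X - ct d Complex.I) k) 0) := by
  have h1 : ∀ k, ‖t * X k‖ ≤ 1 / 2 := fun k => by
    rw [norm_mul]
    exact (mul_le_mul_of_nonneg_left (X.norm_coe_le_norm k) (norm_nonneg _)).trans ht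
  have h2 : ∀ k, t * X k - 2 * Complex.I ≠ 0 := by
    intro k h
    have h3 : t * X k = 2 * Complex.I := sub_eq_zero.1 h
    have h4 := h1 k
    rw [h3] at h4
    simp at h4
    norm_num at h4
  have h5 : ∀ k, cayx ((t • X - ct d Complex.I) k) 0 = t * X k / (t * X k - 2 * Complex.I) := by
    intro k
    unfold cayx ct
    simp only [ContinuousMap.sub_apply, ContinuousMap.smul_apply, ContinuousMap.const_apply,
      smul_eq_mul, Complex.ofReal_zero, add_zero]
    congr 1 <;> ring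
  refine ⟨h2, h5, ?_⟩
  rw [show (fun k => cayx ((t • X - ct d Complex.I) k) 0) =
    fun k => t * X k / (t * X k - 2 * Complex.I) from funext h5]
  exact Continuous.div (by fun_prop) (by fun_prop) h2

theorem res_of (ho : S_OPR) (hd : S_DIA) (hs : S_SYMB) (hc : S_CSYM) (hq : S_QL) : S_RES := by
  intro ν _ d X t ht x
  obtain ⟨hne, hval, hcont⟩ := toC_mm X t ht
  set m : C(UnitAddTorus (Fin d), ℂ) := toC fun k => cayx ((t • X - ct d Complex.I) k) 0 with hm
  have hmk : ∀ k, m k = t * X k / (t * X k - 2 * Complex.I) := fun k => by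
    rw [hm, toC_apply hcont, hval]
  have h1 : ∀ k, ‖t * X k‖ ≤ 1 / 2 := fun k => by
    rw [norm_mul]
    exact (mul_le_mul_of_nonneg_left (X.norm_coe_le_norm k) (norm_nonneg _)).trans ht
  have hmn : ‖m‖ < 1 := by
    have h2 : ‖m‖ ≤ 1 / 3 := by
      rw [ContinuousMap.norm_le _ (by norm_num)]
      intro k
      rw [hmk, norm_div]
      have h3 : 3 / 2 ≤ ‖t * X k - 2 * Complex.I‖ := by
        have h4 := norm_sub_norm_le (2 * Complex.I) (t * X k)
        rw [norm_sub_rev] at h4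
        have h5 : ‖(2 * Complex.I : ℂ)‖ = 2 := by simp
        rw [h5] at h4
        linarith [h1 k]
      rw [div_le_iff₀ (by linarith)]
      linarith [h1 k]
    linarith
  have hmX : (m - 1) * (t • X) = (2 * Complex.I) • m := by
    ext k
    simp only [ContinuousMap.mul_apply, ContinuousMap.sub_apply, ContinuousMap.one_apply,
      ContinuousMap.smul_apply, smul_eq_mul]
    rw [hmk]
    have := hne k
    field_simp
    ring
  set C := csym ν m with hC
  have hGX : GX ν (t • X - ct d Complex.I) =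
      (1 / (2 * Complex.I)) • ((m - 1) * (1 + (m - 1) * C)) := by
    have e1 : (fun k => (cayx ((t • X - ct d Complex.I) k) 0 - 1) *
        (1 + (cayx ((t • X - ct d Complex.I) k) 0 - 1) * csym ν m k) / (2 * Complex.I)) =
        fun k => ((1 / (2 * Complex.I)) • ((m - 1) * (1 + (m - 1) * C))) k := by
      funext k
      rw [hval, ← hmk]
      simp only [ContinuousMap.mul_apply, ContinuousMap.sub_apply, ContinuousMap.one_apply,
        ContinuousMap.add_apply, ContinuousMap.smul_apply, smul_eq_mul]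
      rw [hC]
      ring
    unfold GX
    rw [← hm, e1]
    ext k
    exact toC_apply (ContinuousMap.continuous _) k
  -- the terms
  obtain ⟨hcr, hcm, -⟩ := hc ν d m hmn
  have hX0 : ‖t‖ * ‖X‖ ≤ 1 / 2 := ht
  have hbd : ∀ n v, ‖(-t) ^ n * ter X n v (dl 0) x‖ ≤ (1 / 2) ^ n := by
    intro n v
    have h2 : ‖ter X n v (dl 0) x‖ ≤ ‖X‖ ^ n := by
      refine (coord_le _ x).trans ((ContinuousLinearMap.le_opNorm _ _).trans ?_)
      calc ‖ter X n v‖ * ‖(dl 0 : l2 (Fin d → ℤ))‖ ≤ ‖X‖ ^ n * 1 :=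
            mul_le_mul (norm_ter ho hd X n v) (norm_dl 0) (norm_nonneg _) (by positivity)
        _ = ‖X‖ ^ n := mul_one _
    rw [norm_mul, norm_pow, norm_neg]
    calc ‖t‖ ^ n * ‖ter X n v (dl 0) x‖ ≤ ‖t‖ ^ n * ‖X‖ ^ n :=
          mul_le_mul_of_nonneg_left h2 (by positivity)
      _ = (‖t‖ * ‖X‖) ^ n := by rw [mul_pow]
      _ ≤ (1 / 2) ^ n := pow_le_pow_left₀ (by positivity) ht n
  have hmeas : ∀ n, Measurable fun v => (-t) ^ n * ter X n v (dl 0) x := fun n =>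
    (((hq d).2.2.2.2 _ (ql_ter ho hd hq X n)).2 (dl 0) x).const_mul _
  have hint : ∀ n, Integrable (fun v => (-t) ^ n * ter X n v (dl 0) x) (Pn ν (Fin d → ℤ)) :=
    fun n => Integrable.of_bound (hmeas n).aestronglyMeasurable ((1 / 2) ^ n)
      (Eventually.of_forall (hbd n))
  have hsumm : Summable fun n => ∫ v, ‖(-t) ^ n * ter X n v (dl 0) x‖ ∂(Pn ν (Fin d → ℤ)) := by
    refine Summable.of_nonneg_of_le (fun n => integral_nonneg fun v => norm_nonneg _)
      (fun n => ?_) (summable_geometric_of_lt_one (r := (1 / 2 : ℝ)) (by norm_num) (by norm_num))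
    calc ∫ v, ‖(-t) ^ n * ter X n v (dl 0) x‖ ∂(Pn ν (Fin d → ℤ))
        ≤ ∫ _, (1 / 2 : ℝ) ^ n ∂(Pn ν (Fin d → ℤ)) :=
          integral_mono (hint n).norm (integrable_const _) (hbd n)
      _ = (1 / 2) ^ n := by simp
  have hS := hasSum_integral_of_summable_integral_norm hint hsumm
  simp only [integral_const_mul] at hS
  suffices hval2 : ∫ v, ∑' n, (-t) ^ n * ter X n v (dl 0) x ∂(Pn ν (Fin d → ℤ)) =
      UnitAddTorus.mFourierCoeff (GX ν (t • X - ct d Complex.I)) x by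
    rw [← hval2]
    exact hS
  -- the value
  set w : l2 (Fin d → ℤ) := opr (1 - m) (dl 0) with hw
  have hv : ∀ v, ∑' n, (-t) ^ n * ter X n v (dl 0) x =
      (1 / (2 * Complex.I)) * ((dc v (rsv m v w)) x - (rsv m v w) x) := by
    intro v
    have h2 := inv_eq ho hd hc ν X m t ht hmn hmX v
    have h3 := (h2.mapL (ContinuousLinearMap.apply ℂ (l2 (Fin d → ℤ)) (dl 0))).mapL
      (lp.evalCLM ℂ (fun _ : Fin d → ℤ => ℂ) 2 x)
    have h4 : HasSum (fun n : ℕ => (-t) ^ n * ter X n v (dl 0) x)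
        (DD v (rsv m v w) x) := h3
    rw [h4.tsum_eq, DD_eq hd]
    rfl
  rw [integral_congr_ae (Eventually.of_forall hv), integral_const_mul]
  obtain ⟨hm1, hm2, hi2, hi1⟩ := hcm w x
  have hb1 : ∀ v, ‖(rsv m v w) x‖ ≤ 1 / (1 - ‖m‖) * ‖w‖ := fun v =>
    (coord_le _ x).trans ((ContinuousLinearMap.le_opNorm _ _).trans
      (mul_le_mul_of_nonneg_right (hcr v).1 (norm_nonneg _)))
  have hb2 : ∀ v, ‖(dc v (rsv m v w)) x‖ ≤ 1 / (1 - ‖m‖) * ‖w‖ := fun v => by
    rw [dc_apply hd, norm_mul]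
    calc ‖cay (v x)‖ * ‖(rsv m v w) x‖ ≤ 1 * (1 / (1 - ‖m‖) * ‖w‖) :=
          mul_le_mul (norm_cay _) (hb1 v) (norm_nonneg _) zero_le_one
      _ = _ := one_mul _
  have hI1 : Integrable (fun v => (rsv m v w) x) (Pn ν (Fin d → ℤ)) :=
    Integrable.of_bound hm1.aestronglyMeasurable _ (Eventually.of_forall hb1)
  have hI2 : Integrable (fun v => (dc v (rsv m v w)) x) (Pn ν (Fin d → ℤ)) :=
    Integrable.of_bound hm2.aestronglyMeasurable _ (Eventually.of_forall hb2)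
  rw [integral_sub hI2 hI1, hi2, hi1, ← hC, hGX]
  have h5 := (hs d).2.2.2.2 ((1 / (2 * Complex.I)) • ((m - 1) * (1 + (m - 1) * C))) x 0
  rw [sub_zero] at h5
  rw [← h5]
  have h6 : (1 / (2 * Complex.I)) • ((m - 1) * (1 + (m - 1) * C)) =
      (1 / (2 * Complex.I)) • (C - (1 + m * C)) * (1 - m) := by
    rw [smul_mul_assoc]
    congr 1
    ring
  have h7 : opr ((1 / (2 * Complex.I)) • (C - (1 + m * C)) * (1 - m)) =
      ((1 / (2 * Complex.I)) • (opr C - (1 + opr (m * C)))) * opr (1 - m) := by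
    rw [opr_mul ho, opr_smul ho, opr_sub ho, opr_add ho, opr_one ho]
  rw [h6, h7]
  rfl

end ops

end Run7.h83.SD
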