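import Pool.Agent.Run7.h83.SD.RESA
import Pool.Agent.W792.WA.All

/-!
Project SD (helper47), piece RES.
-/

set_option autoImplicit false

namespace Run7.h83.SD

open Pool.Agent.W792.LL Pool.Agent.W792.WA

theorem t_RES : Pool.Agent.Run7.h47.SD.S_RES := res_of Al.opr Al.dia Al.symb Al.csym Al.ql

end Run7.h83.SD
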